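import Pool.Agent.Helper50_SFT.Defs

/-!
# MP_5e5085_pr, modules E1 (gluing) and E2 (reading the phase) (helper8)
-/

set_option autoImplicit false

namespace Pool.Agent.Helper8_SFT

open Pool.Agent.Helper50_SFT

/-! ## Distances -/

theorem dist_le_nat (u v : Z2) (n : ℕ) : dist u v ≤ (n : ℝ) ↔ ∀ c, |u c - v c| ≤ (n : ℤ) := by
  rw [dist_pi_le_iff (by positivity)]
  refine forall_congr' fun c => ?_
  rw [Int.dist_eq]
  constructor
  · intro h
    exact_mod_cast h
  · intro h
    exact_mod_cast h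

theorem dist_le_one (u v : Z2) : dist u v ≤ 1 ↔ ∀ c, |u c - v c| ≤ 1 := by
  have := dist_le_nat u v 1
  simpa using this

theorem abs_le_dist (u v : Z2) (c : Fin 2) : |((u c - v c : ℤ) : ℝ)| ≤ dist u v := by
  have h := dist_le_pi_dist u v c
  rw [Int.dist_eq] at h
  simpa using h

theorem exists_eq_dist (u v : Z2) : ∃ c, dist u v = |((u c - v c : ℤ) : ℝ)| := by
  by_contra hcon
  push Not at hcon
  have h : ∀ c, |((u c - v c : ℤ) : ℝ)| < dist u v := fun c =>
    lt_of_le_of_ne (abs_le_dist u v c) (fun e => hcon c e.symm)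
  have h0 : 0 < dist u v := lt_of_le_of_lt (abs_nonneg _) (h 0)
  have h1 : dist u v < dist u v := by
    rw [dist_pi_lt_iff h0]
    intro c
    rw [Int.dist_eq]
    simpa using h c
  exact lt_irrefl _ h1

theorem eq_mk (u : Z2) : u = ![u 0, u 1] := by
  funext c
  fin_cases c <;> rfl

/-! ## Positions mod 3 -/

/-- position mod 3 -/
def pos (s : Cell) (c : Fin 2) : ZMod 3 := if c = 0 then s.px else s.py

theorem px_T {τ : ℤ → ℤ → Cell} (h : IsT τ) (a b : ℤ) : (τ a b).px = (τ 0 0).px + (a : ZMod 3) := by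
  have h1 : ∀ a : ℤ, (τ a 0).px = (τ 0 0).px + (a : ZMod 3) := by
    intro a
    induction a using Int.induction_on with
    | zero => simp
    | succ n ih => rw [h.pxH, ih]; push_cast; ring
    | pred n ih =>
      have := h.pxH (-(n : ℤ) - 1) 0
      rw [sub_add_cancel, ih] at this
      rw [← sub_eq_iff_eq_add] at this
      rw [← this]
      push_cast
      ring
  have h2 : ∀ b : ℤ, (τ a b).px = (τ a 0).px := by
    intro b
    induction b using Int.induction_on with
    | zero => rfl
    | succ n ih => rw [h.pxV, ih]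
    | pred n ih =>
      have := h.pxV a (-(n : ℤ) - 1)
      rw [sub_add_cancel, ih] at this
      exact this.symm
  rw [h2, h1]

theorem py_T {τ : ℤ → ℤ → Cell} (h : IsT τ) (a b : ℤ) : (τ a b).py = (τ 0 0).py + (b : ZMod 3) := by
  have h1 : ∀ b : ℤ, (τ a b).py = (τ a 0).py + (b : ZMod 3) := by
    intro b
    induction b using Int.induction_on with
    | zero => simp
    | succ n ih => rw [h.pyV, ih]; push_cast; ring
    | pred n ih =>
      have := h.pyV a (-(n : ℤ) - 1)
      rw [sub_add_cancel, ih] at this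
      rw [← sub_eq_iff_eq_add] at this
      rw [← this]
      push_cast
      ring
  have h2 : ∀ a : ℤ, (τ a 0).py = (τ 0 0).py := by
    intro a
    induction a using Int.induction_on with
    | zero => rfl
    | succ n ih => rw [h.pyH, ih]
    | pred n ih =>
      have := h.pyH (-(n : ℤ) - 1) 0
      rw [sub_add_cancel, ih] at this
      exact this.symm
  rw [h1, h2]

theorem pos_sub {τ : ℤ → ℤ → Cell} (h : IsT τ) (u v : Z2) (c : Fin 2) :
    pos (τ (u 0) (u 1)) c - pos (τ (v 0) (v 1)) c = ((u c - v c : ℤ) : ZMod 3) := by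
  fin_cases c
  · simp only [pos, Fin.zero_eta, if_true]
    rw [px_T h (u 0) (u 1), px_T h (v 0) (v 1)]
    push_cast
    ring
  · simp only [pos, Fin.mk_one, Fin.isValue, one_ne_zero, if_false]
    rw [py_T h (u 0) (u 1), py_T h (v 0) (v 1)]
    push_cast
    ring

/-- the representative in `{-1, 0, 1}` -/
def lift3 (z : ZMod 3) : ℤ := if z = 0 then 0 else if z = 1 then 1 else -1

theorem lift3_cast (m : ℤ) (hm : |m| ≤ 1) : lift3 (m : ZMod 3) = m := by
  rw [abs_le] at hm
  obtain ⟨h1, h2⟩ := hm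
  interval_cases m
  · decide
  · decide
  · decide

/-- increment of the elastic map, read from the positions mod 3 -/
def inc (X : Z2 → Cell) (x y : Z2) (c : Fin 2) : ℤ := lift3 (pos (X x) c - pos (X y) c)

theorem inc_eq {τ : ℤ → ℤ → Cell} (h : IsT τ) (X : Z2 → Cell) (x y w z : Z2) (c : Fin 2)
    (hx : X x = τ (w 0) (w 1)) (hy : X y = τ (z 0) (z 1)) (hd : dist w z ≤ 1) :
    inc X x y c = w c - z c := by
  unfold inc
  rw [hx, hy, pos_sub h]
  exact lift3_cast _ ((dist_le_one _ _).1 hd c)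

/-! ## Potentials -/

theorem exists_prim (g : ℤ → ℤ) : ∃ F : ℤ → ℤ, ∀ n, F (n + 1) - F n = g n := by
  refine ⟨fun n => (∑ i ∈ Finset.Ico 0 n, g i) - ∑ i ∈ Finset.Ico n 0, g i, fun n => ?_⟩
  rcases le_or_gt 0 n with hn | hn
  · have h1 : Finset.Ico 0 (n + 1) = insert n (Finset.Ico 0 n) := by
      ext i
      simp only [Finset.mem_Ico, Finset.mem_insert]
      omega
    have h2 : Finset.Ico (n + 1) 0 = ∅ := by
      ext i
      simp only [Finset.mem_Ico, Finset.notMem_empty, iff_false]
      omega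
    have h3 : Finset.Ico n 0 = ∅ := by
      ext i
      simp only [Finset.mem_Ico, Finset.notMem_empty, iff_false]
      omega
    simp only [h1, h2, h3]
    rw [Finset.sum_insert (by simp)]
    simp
  · have h1 : Finset.Ico n 0 = insert n (Finset.Ico (n + 1) 0) := by
      ext i
      simp only [Finset.mem_Ico, Finset.mem_insert]
      omega
    have h2 : Finset.Ico 0 (n + 1) = ∅ := by
      ext i
      simp only [Finset.mem_Ico, Finset.notMem_empty, iff_false]
      omega
    have h3 : Finset.Ico 0 n = ∅ := by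
      ext i
      simp only [Finset.mem_Ico, Finset.notMem_empty, iff_false]
      omega
    simp only [h1, h2, h3]
    rw [Finset.sum_insert (by simp)]
    simp

theorem exists_potential (D0 D1 : ℤ → ℤ → ℤ)
    (hc : ∀ a b, D0 a b + D1 (a + 1) b = D1 a b + D0 a (b + 1)) :
    ∃ F : ℤ → ℤ → ℤ, ∀ a b, F (a + 1) b - F a b = D0 a b ∧ F a (b + 1) - F a b = D1 a b := by
  obtain ⟨R, hR⟩ := exists_prim (fun a => D0 a 0)
  choose C hC using fun a => exists_prim (fun b => D1 a b)
  refine ⟨fun a b => R a + (C a b - C a 0), fun a b => ⟨?_, ?_⟩⟩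
  · induction b using Int.induction_on with
    | zero => have := hR a; simp only at *; omega
    | succ n ih =>
      have h1 := hC a n
      have h2 := hC (a + 1) n
      have h3 := hc a n
      simp only at *
      omega
    | pred n ih =>
      have h1 := hC a (-(n : ℤ) - 1)
      have h2 := hC (a + 1) (-(n : ℤ) - 1)
      have h3 := hc a (-(n : ℤ) - 1)
      rw [sub_add_cancel] at h1 h2 h3
      simp only at *
      omega
  · have := hC a b
    simp only at *
    omega

theorem const_of_step {α : Type*} (R : ℤ) (g : ℤ → α)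
    (h : ∀ n, -R ≤ n → n < R → g (n + 1) = g n) : ∀ n, |n| ≤ R → g n = g 0 := by
  intro n
  induction n using Int.induction_on with
  | zero => intro _; rfl
  | succ n ih =>
    intro hn
    rw [abs_le] at hn
    rw [h n (by omega) (by omega)]
    exact ih (by rw [abs_le]; omega)
  | pred n ih =>
    intro hn
    rw [abs_le] at hn
    have h1 := h (-(n : ℤ) - 1) (by omega) (by omega)
    rw [sub_add_cancel] at h1
    rw [← h1]
    exact ih (by rw [abs_le]; omega)

theorem const_of_step2 {α : Type*} (R : ℤ) (g : Z2 → α)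
    (h0 : ∀ a b, -R ≤ a → a < R → |b| ≤ R → g ![a + 1, b] = g ![a, b])
    (h1 : ∀ a b, |a| ≤ R → -R ≤ b → b < R → g ![a, b + 1] = g ![a, b]) (u : Z2)
    (hu : ∀ c, |u c| ≤ R) : g u = g 0 := by
  have hR : 0 ≤ R := le_trans (abs_nonneg _) (hu 0)
  rw [eq_mk u]
  have e1 : g ![u 0, u 1] = g ![u 0, 0] :=
    const_of_step R (fun b => g ![u 0, b]) (fun n hn hn' => h1 (u 0) n (hu 0) hn hn') (u 1) (hu 1)
  have e2 : g ![u 0, 0] = g ![0, 0] :=
    const_of_step R (fun a => g ![a, 0]) (fun n hn hn' => h0 n 0 hn hn' (by simpa using hR)) (u 0)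
      (hu 0)
  rw [e1, e2]
  congr 1
  funext c
  fin_cases c <;> rfl

/-! ## Windows -/

set_option maxRecDepth 20000 in
/-- window data of a point of the elastic SFT -/
theorem window {X : Z2 → Cell} (hX : InS X) (v : Z2) : ∃ (h : Z2 → Z2) (τ : ℤ → ℤ → Cell),
    Elastic h ∧ IsT τ ∧ ∀ u : Z2, (∀ c, |u c| ≤ 100) → X (v + u) = τ (h u 0) (h u 1) := by
  obtain ⟨h, hh, τ, hτ, he⟩ := hX v
  refine ⟨h, τ, hh, hτ, fun u hu => ?_⟩
  have hu' : u ∈ box 100 := by
    rw [box, Fintype.mem_piFinset]
    intro c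
    rw [Finset.mem_Icc]
    have := hu c
    rw [abs_le] at this
    exact_mod_cast this
  generalize box 100 = B at *
  exact he ⟨u, hu'⟩

theorem dist_mk (a b a' b' : ℤ) (h : |a - a'| ≤ 1) (h' : |b - b'| ≤ 1) :
    dist (![a, b] : Z2) ![a', b'] ≤ 1 := by
  rw [dist_le_one]
  intro c
  fin_cases c
  · simpa using h
  · simpa using h'

theorem add_mk (v : Z2) (a b : ℤ) : v + ![a, b] = ![v 0 + a, v 1 + b] := by
  funext c
  fin_cases c <;> rfl

theorem window_inc {X : Z2 → Cell} {v : Z2} {h : Z2 → Z2} {τ : ℤ → ℤ → Cell} (hh : Elastic h)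
    (hτ : IsT τ) (he : ∀ u : Z2, (∀ c, |u c| ≤ 100) → X (v + u) = τ (h u 0) (h u 1))
    (u u' : Z2) (hu : ∀ c, |u c| ≤ 100) (hu' : ∀ c, |u' c| ≤ 100) (hd : dist u u' ≤ 1) (c : Fin 2) :
    inc X (v + u) (v + u') c = h u c - h u' c :=
  inc_eq hτ X _ _ _ _ c (he u hu) (he u' hu') (hh.step _ _ hd)

theorem small_mk (a b : ℤ) (R : ℤ) (ha : |a| ≤ R) (hb : |b| ≤ R) : ∀ c, |(![a, b] : Z2) c| ≤ R := by
  intro c
  fin_cases c
  · simpa using ha
  · simpa using hb

theorem exists_H {X : Z2 → Cell} (hX : InS X) : ∃ H : Z2 → Z2, ∀ (x : Z2) (c : Fin 2),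
    H ![x 0 + 1, x 1] c - H x c = inc X ![x 0 + 1, x 1] x c ∧
    H ![x 0, x 1 + 1] c - H x c = inc X ![x 0, x 1 + 1] x c := by
  have key : ∀ c : Fin 2, ∃ F : ℤ → ℤ → ℤ, ∀ a b,
      F (a + 1) b - F a b = inc X ![a + 1, b] ![a, b] c ∧
      F a (b + 1) - F a b = inc X ![a, b + 1] ![a, b] c := by
    intro c
    refine exists_potential (fun a b => inc X ![a + 1, b] ![a, b] c)
      (fun a b => inc X ![a, b + 1] ![a, b] c) fun a b => ?_
    obtain ⟨h, τ, hh, hτ, he⟩ := window hX ![a, b]
    have w := fun (i j i' j' : ℤ) (hi : |i| ≤ 100) (hj : |j| ≤ 100) (hi' : |i'| ≤ 100)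
      (hj' : |j'| ≤ 100) (h1 : |i - i'| ≤ 1) (h2 : |j - j'| ≤ 1) =>
        window_inc hh hτ he ![i, j] ![i', j'] (small_mk i j 100 hi hj) (small_mk i' j' 100 hi' hj')
        (dist_mk _ _ _ _ h1 h2) c
    have w1 := w 1 0 0 0 (by norm_num) (by norm_num) (by norm_num) (by norm_num) (by norm_num) (by norm_num)
    have w2 := w 1 1 1 0 (by norm_num) (by norm_num) (by norm_num) (by norm_num) (by norm_num) (by norm_num)
    have w3 := w 0 1 0 0 (by norm_num) (by norm_num) (by norm_num) (by norm_num) (by norm_num) (by norm_num)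
    have w4 := w 1 1 0 1 (by norm_num) (by norm_num) (by norm_num) (by norm_num) (by norm_num) (by norm_num)
    rw [add_mk, add_mk] at w1 w2 w3 w4
    simp only [Matrix.cons_val_zero, Matrix.cons_val_one, add_zero] at w1 w2 w3 w4 ⊢
    rw [w1, w2, w3, w4]
    ring
  choose F hF using key
  refine ⟨fun x c => F c (x 0) (x 1), fun x c => ?_⟩
  have := hF c (x 0) (x 1)
  rw [← eq_mk x] at this
  simpa using this

theorem H_window {X : Z2 → Cell} {H : Z2 → Z2} (hH : ∀ (x : Z2) (c : Fin 2),
    H ![x 0 + 1, x 1] c - H x c = inc X ![x 0 + 1, x 1] x c ∧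
    H ![x 0, x 1 + 1] c - H x c = inc X ![x 0, x 1 + 1] x c)
    {v : Z2} {h : Z2 → Z2} {τ : ℤ → ℤ → Cell} (hh : Elastic h)
    (hτ : IsT τ) (he : ∀ u : Z2, (∀ c, |u c| ≤ 100) → X (v + u) = τ (h u 0) (h u 1))
    (u : Z2) (hu : ∀ c, |u c| ≤ 100) (c : Fin 2) :
    H (v + u) c - H v c = h u c - h 0 c := by
  have key := const_of_step2 100 (fun u => H (v + u) c - h u c) ?_ ?_ u hu
  · simp only [add_zero] at key
    omega
  · intro a b ha ha' hb
    have h1 := window_inc hh hτ he ![a + 1, b] ![a, b]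
      (small_mk _ _ 100 (by rw [abs_le]; omega) hb) (small_mk _ _ 100 (by rw [abs_le]; omega) hb)
      (dist_mk _ _ _ _ (by simp) (by simp)) c
    have h2 := (hH (v + ![a, b]) c).1
    have e : (v + ![a + 1, b] : Z2) = ![(v + ![a, b]) 0 + 1, (v + ![a, b]) 1] := by
      rw [add_mk, add_mk]
      simp only [Matrix.cons_val_zero, Matrix.cons_val_one]
      rw [add_assoc]
    rw [← e] at h2
    omega
  · intro a b ha hb hb'
    have h1 := window_inc hh hτ he ![a, b + 1] ![a, b]
      (small_mk _ _ 100 ha (by rw [abs_le]; omega)) (small_mk _ _ 100 ha (by rw [abs_le]; omega))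
      (dist_mk _ _ _ _ (by simp) (by simp)) c
    have h2 := (hH (v + ![a, b]) c).2
    have e : (v + ![a, b + 1] : Z2) = ![(v + ![a, b]) 0, (v + ![a, b]) 1 + 1] := by
      rw [add_mk, add_mk]
      simp only [Matrix.cons_val_zero, Matrix.cons_val_one]
      rw [add_assoc]
    rw [← e] at h2
    omega

theorem affine_of_local (H : Z2 → Z2) (hloc : ∀ (x y : Z2), (∀ c, |y c - x c| ≤ 100) → ∀ c,
    |10 * (H y c - H x c) - (y c - x c)| ≤ 20) (n : ℕ) :
    ∀ (x y : Z2), (∀ c, |y c - x c| ≤ 100 * (n : ℤ)) → ∀ c,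
    |10 * (H y c - H x c) - (y c - x c)| ≤ 20 * (n : ℤ) := by
  induction n with
  | zero =>
    intro x y hxy c
    have : x = y := by
      funext c
      have := hxy c
      simp only [Nat.cast_zero, mul_zero, abs_nonpos_iff] at this
      omega
    subst this
    simp
  | succ n ih =>
    intro x y hxy c
    set z : Z2 := fun c => x c + max (-100) (min 100 (y c - x c)) with hz
    have h1 := hloc x z (fun c => by
      simp only [hz]
      rw [abs_le]
      omega) c
    have h2 := ih z y (fun c => by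
      have := hxy c
      simp only [hz]
      rw [abs_le] at this ⊢
      push_cast at this
      omega) c
    rw [abs_le] at h1 h2 ⊢
    push_cast
    omega

/-- MODULE E1. -/
theorem glue : GlueStatement := by
  intro X hX
  obtain ⟨H, hH⟩ := exists_H hX
  -- in every window the increments of `H` are those of the window map
  have win : ∀ v : Z2, ∃ (h : Z2 → Z2) (τ : ℤ → ℤ → Cell), Elastic h ∧ IsT τ ∧
      (∀ u : Z2, (∀ c, |u c| ≤ 100) → X (v + u) = τ (h u 0) (h u 1)) ∧
      ∀ u : Z2, (∀ c, |u c| ≤ 100) → ∀ c, H (v + u) c - H v c = h u c - h 0 c := by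
    intro v
    obtain ⟨h, τ, hh, hτ, he⟩ := window hX v
    exact ⟨h, τ, hh, hτ, he, fun u hu c => H_window hH hh hτ he u hu c⟩
  have hstep : ∀ x y : Z2, dist x y ≤ 1 → dist (H x) (H y) ≤ 1 := by
    intro x y hd
    obtain ⟨h, τ, hh, hτ, he, hw⟩ := win y
    have hu : ∀ c, |(x - y) c| ≤ 1 := (dist_le_one x y).1 hd
    have hu' : ∀ c, |(x - y) c| ≤ 100 := fun c => le_trans (hu c) (by norm_num)
    have h1 := hh.step (x - y) 0 (by rw [dist_le_one]; simpa using hu)
    rw [dist_le_one] at h1 ⊢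
    intro c
    have h2 := hw (x - y) hu' c
    rw [add_sub_cancel] at h2
    rw [h2]
    exact h1 c
  have hsurj : ∀ x u : Z2, dist u (H x) ≤ 1 → ∃ y, dist y x ≤ 16 ∧ H y = u := by
    intro x u hd
    obtain ⟨h, τ, hh, hτ, he, hw⟩ := win x
    obtain ⟨y, hy, hy'⟩ := hh.surj 0 (u - H x + h 0) (by
      rw [dist_le_one] at hd ⊢
      intro c
      have := hd c
      simpa using this)
    have hy2 : ∀ c, |y c| ≤ 16 := by
      have := (dist_le_nat y 0 16).1 (by simpa using hy)
      simpa using this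
    refine ⟨x + y, ?_, ?_⟩
    · have := (dist_le_nat (x + y) x 16).2 (by simpa using hy2)
      simpa using this
    · funext c
      have h2 := hw y (fun c => le_trans (hy2 c) (by norm_num)) c
      rw [hy'] at h2
      simp only [Pi.add_apply, Pi.sub_apply] at h2
      omega
  have hloc : ∀ (x y : Z2), (∀ c, |y c - x c| ≤ 100) → ∀ c,
      |10 * (H y c - H x c) - (y c - x c)| ≤ 20 := by
    intro x y hxy c
    obtain ⟨h, τ, hh, hτ, he, hw⟩ := win x
    have h1 := hw (y - x) hxy c
    rw [add_sub_cancel] at h1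
    have h2 := hh.affine (y - x) 0 c
    have h3 : dist (y - x) 0 ≤ 100 := by
      have := (dist_le_nat (y - x) 0 100).2 (by simpa using hxy)
      simpa using this
    have h4 : |10 * ((h (y - x) c - h 0 c : ℤ) : ℝ) - (((y - x) c - (0 : Z2) c : ℤ) : ℝ)| ≤ 20 :=
      le_trans h2 (by linarith)
    rw [← h1] at h4
    have h5 : |10 * (H y c - H x c) - ((y - x) c - (0 : Z2) c)| ≤ 20 := by
      exact_mod_cast h4
    simpa using h5
  have haff : ∀ (x y : Z2) (c : Fin 2),
      |10 * ((H x c - H y c : ℤ) : ℝ) - ((x c - y c : ℤ) : ℝ)| ≤ 4 / 10 * dist x y + 40 := by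
    intro x y c
    set n : ℕ := ⌈dist x y / 100⌉₊ with hn
    have hn1 : dist x y / 100 ≤ n := Nat.le_ceil _
    have hn2 : (n : ℝ) < dist x y / 100 + 1 := Nat.ceil_lt_add_one (by positivity)
    have h1 := affine_of_local H hloc n y x (fun c => by
      have h2 := abs_le_dist x y c
      have h3 : |((x c - y c : ℤ) : ℝ)| ≤ 100 * (n : ℝ) := by linarith
      exact_mod_cast h3) c
    have h2 : |10 * ((H x c - H y c : ℤ) : ℝ) - ((x c - y c : ℤ) : ℝ)| ≤ 20 * (n : ℝ) := by
      exact_mod_cast h1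
    have h3 : 0 ≤ dist x y := dist_nonneg
    linarith
  -- `H` is onto
  have honto : ∀ u : Z2, ∃ x, H x = u := by
    have key : ∀ (n : ℕ) (u : Z2), (∀ c, |u c - H 0 c| ≤ (n : ℤ)) → ∃ x, H x = u := by
      intro n
      induction n with
      | zero =>
        intro u hu
        refine ⟨0, ?_⟩
        funext c
        have := hu c
        simp only [Nat.cast_zero, abs_nonpos_iff] at this
        omega
      | succ n ih =>
        intro u hu
        set w : Z2 := fun c => H 0 c + max (-(n : ℤ)) (min n (u c - H 0 c)) with hw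
        obtain ⟨x, hx⟩ := ih w (fun c => by
          simp only [hw]
          rw [abs_le]
          omega)
        obtain ⟨y, _, hy⟩ := hsurj x u (by
          rw [dist_le_one, hx]
          intro c
          have := hu c
          simp only [hw]
          rw [abs_le] at this ⊢
          push_cast at this
          omega)
        exact ⟨y, hy⟩
    intro u
    refine key (max |u 0 - H 0 0| |u 1 - H 0 1|).toNat u (fun c => ?_)
    fin_cases c
    · simp
    · simp
  -- sites with the same image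
  have hinj : ∀ x y : Z2, H x = H y → (∀ c, |y c - x c| ≤ 100) := by
    intro x y hxy
    obtain ⟨c, hc⟩ := exists_eq_dist y x
    have h1 := haff y x c
    rw [hxy] at h1
    simp only [sub_self, Int.cast_zero, mul_zero, zero_sub, abs_neg] at h1
    rw [← hc] at h1
    have h2 : dist y x ≤ 100 := by linarith
    have := (dist_le_nat y x 100).1 (by simpa using h2)
    simpa using this
  have hwell : ∀ x y : Z2, H x = H y → X x = X y := by
    intro x y hxy
    obtain ⟨h, τ, hh, hτ, he, hw⟩ := win x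
    have hu := hinj x y hxy
    have h1 := he (y - x) hu
    have h2 := he 0 (fun c => by simp)
    have h3 := hw (y - x) hu
    rw [add_sub_cancel] at h1
    simp only [add_sub_cancel, hxy, sub_self] at h3
    have h4 : h (y - x) = h 0 := by
      funext c
      have := h3 c
      omega
    rw [add_zero] at h2
    rw [h1, h2, h4]
  choose s hs using honto
  have hτX : ∀ x : Z2, X x = X (s ![H x 0, H x 1]) := by
    intro x
    refine hwell _ _ ?_
    rw [hs]
    exact eq_mk (H x)
  -- neighbours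
  have nbr : ∀ (i j : ℤ) (a b : ℤ), |a| ≤ 1 → |b| ≤ 1 → ∃ (τ : ℤ → ℤ → Cell) (p q : ℤ), IsT τ ∧
      X (s ![i, j]) = τ p q ∧ X (s ![i + a, j + b]) = τ (p + a) (q + b) := by
    intro i j a b ha hb
    obtain ⟨h, τ, hh, hτ, he, hw⟩ := win (s ![i, j])
    obtain ⟨y, hy, hy'⟩ := hsurj (s ![i, j]) ![i + a, j + b] (by
      rw [hs]
      exact dist_mk _ _ _ _ (by simpa using ha) (by simpa using hb))
    have hyy : X (s ![i + a, j + b]) = X y := hwell _ _ (by rw [hs, hy'])
    have hu : ∀ c, |(y - s ![i, j]) c| ≤ 100 := by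
      have := (dist_le_nat y (s ![i, j]) 16).1 (by simpa using hy)
      intro c
      exact le_trans (this c) (by norm_num)
    have h1 := he _ hu
    have h2 := he 0 (fun c => by simp)
    have h3 := hw _ hu
    rw [add_sub_cancel] at h1
    rw [add_zero] at h2
    simp only [add_sub_cancel, hy', hs] at h3
    refine ⟨τ, h 0 0, h 0 1, hτ, h2, ?_⟩
    rw [hyy, h1]
    have h4 := h3 0
    have h5 := h3 1
    simp only [Matrix.cons_val_zero, Matrix.cons_val_one] at h4 h5
    congr 1
    · omega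
    · omega
  refine ⟨H, fun i j => X (s ![i, j]), ?_, hτX, haff, hstep, hsurj⟩
  refine ⟨?_, ?_, ?_, ?_, ?_, ?_, ?_⟩
  · intro x y
    obtain ⟨τ, p, q, hτ, h1, _⟩ := nbr x y 0 0 (by norm_num) (by norm_num)
    rw [h1]
    exact hτ.ok p q
  · intro x y
    obtain ⟨τ, p, q, hτ, h1, h2⟩ := nbr x y 1 0 (by norm_num) (by norm_num)
    rw [add_zero, add_zero] at h2
    rw [h1, h2]
    exact hτ.adjH p q
  · intro x y
    obtain ⟨τ, p, q, hτ, h1, h2⟩ := nbr x y 0 1 (by norm_num) (by norm_num)
    rw [add_zero, add_zero] at h2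
    rw [h1, h2]
    exact hτ.adjV p q
  · intro x y
    obtain ⟨τ, p, q, hτ, h1, h2⟩ := nbr x y 1 0 (by norm_num) (by norm_num)
    rw [add_zero, add_zero] at h2
    rw [h1, h2]
    exact hτ.pxH p q
  · intro x y
    obtain ⟨τ, p, q, hτ, h1, h2⟩ := nbr x y 1 0 (by norm_num) (by norm_num)
    rw [add_zero, add_zero] at h2
    rw [h1, h2]
    exact hτ.pyH p q
  · intro x y
    obtain ⟨τ, p, q, hτ, h1, h2⟩ := nbr x y 0 1 (by norm_num) (by norm_num)
    rw [add_zero, add_zero] at h2
    rw [h1, h2]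
    exact hτ.pxV p q
  · intro x y
    obtain ⟨τ, p, q, hτ, h1, h2⟩ := nbr x y 0 1 (by norm_num) (by norm_num)
    rw [add_zero, add_zero] at h2
    rw [h1, h2]
    exact hτ.pyV p q

end Pool.Agent.Helper8_SFT
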