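import Pool.Agent.Helper8_SFT.E1

/-!
# MP_5e5085_pr, module E2 (reading the phase in the elastic SFT) (helper8)
-/

set_option autoImplicit false

namespace Pool.Agent.Helper8_SFT

open Pool.Agent.Helper50_SFT

theorem inS_shift {X : Z2 → Cell} (hX : InS X) (x : Z2) : InS (fun v => X (x + v)) := by
  intro v
  have h := hX (x + v)
  simp only [add_assoc] at h ⊢
  exact h

/-- data given by the gluing statement -/
structure Glued (X : Z2 → Cell) (H : Z2 → Z2) (τ : ℤ → ℤ → Cell) : Prop where
  isT : IsT τ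
  eq : ∀ x, X x = τ (H x 0) (H x 1)
  aff : ∀ (x y : Z2) (c : Fin 2),
    |10 * ((H x c - H y c : ℤ) : ℝ) - ((x c - y c : ℤ) : ℝ)| ≤ 4 / 10 * dist x y + 40
  step : ∀ x y : Z2, dist x y ≤ 1 → dist (H x) (H y) ≤ 1
  surj : ∀ x u : Z2, dist u (H x) ≤ 1 → ∃ y, dist y x ≤ 16 ∧ H y = u

theorem Glued.onto {X : Z2 → Cell} {H : Z2 → Z2} {τ : ℤ → ℤ → Cell} (g : Glued X H τ) (u : Z2) :
    ∃ x, H x = u := by
  have key : ∀ (n : ℕ) (u : Z2), (∀ c, |u c - H 0 c| ≤ (n : ℤ)) → ∃ x, H x = u := by
    intro n
    induction n with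
    | zero =>
      intro u hu
      refine ⟨0, ?_⟩
      funext c
      have := hu c
      simp only [Nat.cast_zero, abs_nonpos_iff] at this
      omega
    | succ n ih =>
      intro u hu
      set w : Z2 := fun c => H 0 c + max (-(n : ℤ)) (min n (u c - H 0 c)) with hw
      obtain ⟨x, hx⟩ := ih w (fun c => by
        simp only [hw]
        rw [abs_le]
        omega)
      obtain ⟨y, _, hy⟩ := g.surj x u (by
        rw [dist_le_one, hx]
        intro c
        have := hu c
        simp only [hw]
        rw [abs_le] at this ⊢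
        push_cast at this
        omega)
      exact ⟨y, hy⟩
  refine key (max |u 0 - H 0 0| |u 1 - H 0 1|).toNat u (fun c => ?_)
  fin_cases c
  · simp
  · simp

/-- increments of two glued maps agree where the points agree -/
theorem Glued.sub_eq {X X' : Z2 → Cell} {H H' : Z2 → Z2} {τ τ' : ℤ → ℤ → Cell} (g : Glued X H τ)
    (g' : Glued X' H' τ') (x : Z2) (R : ℤ) (hXX : ∀ v : Z2, (∀ c, |v c| ≤ R) → X' v = X (x + v))
    (v : Z2) (hv : ∀ c, |v c| ≤ R) (c : Fin 2) : H (x + v) c - H x c = H' v c - H' 0 c := by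
  have stp : ∀ v w : Z2, (∀ c, |v c| ≤ R) → (∀ c, |w c| ≤ R) → dist v w ≤ 1 →
      H (x + v) c - H (x + w) c = H' v c - H' w c := by
    intro v w hv hw hd
    have h1 := inc_eq g'.isT X' v w (H' v) (H' w) c (g'.eq v) (g'.eq w) (g'.step _ _ hd)
    have h2 := inc_eq g.isT X (x + v) (x + w) (H (x + v)) (H (x + w)) c (g.eq _) (g.eq _)
      (g.step _ _ (by simpa using hd))
    rw [← h1, ← h2]
    unfold inc
    rw [hXX v hv, hXX w hw]
  have key := const_of_step2 R (fun v => H (x + v) c - H' v c) ?_ ?_ v hv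
  · simp only [add_zero] at key
    omega
  · intro a b ha ha' hb
    have := stp ![a + 1, b] ![a, b] (small_mk _ _ R (by rw [abs_le]; omega) hb)
      (small_mk _ _ R (by rw [abs_le]; omega) hb) (dist_mk _ _ _ _ (by simp) (by simp))
    omega
  · intro a b ha hb hb'
    have := stp ![a, b + 1] ![a, b] (small_mk _ _ R ha (by rw [abs_le]; omega))
      (small_mk _ _ R ha (by rw [abs_le]; omega)) (dist_mk _ _ _ _ (by simp) (by simp))
    omega

open Classical in
/-- MODULE E2. -/
theorem read (hG : GlueStatement) (hP : PhaseStatement) : ReadStatement := by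
  have glued : ∀ X : Z2 → Cell, ∃ (H : Z2 → Z2) (τ : ℤ → ℤ → Cell), InS X → Glued X H τ := by
    intro X
    by_cases hX : InS X
    · obtain ⟨H, τ, h1, h2, h3, h4, h5⟩ := hG X hX
      exact ⟨H, τ, fun _ => ⟨h1, h2, h3, h4, h5⟩⟩
    · exact ⟨fun _ => 0, fun _ _ => X 0, fun h => absurd h hX⟩
  intro k
  obtain ⟨φ, hφ, hφτ⟩ := hP k
  choose HH TT hg using glued
  -- the value given by a set of candidates
  set val : Set (Z2 → Cell) → ZMod (ell (k + 1)) := fun A =>
    if h : A.Nonempty then
      φ (fun i j => TT h.some (HH h.some 0 0 + i) (HH h.some 0 1 + j)) else 0 with hval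
  set cand : (Z2 → Cell) → Set (Z2 → Cell) := fun Z =>
    {X' | InS X' ∧ ∀ v : Z2, dist v 0 ≤ ((50 * ell k + 70 : ℕ) : ℝ) → X' v = Z v} with hcand
  refine ⟨fun Z => val (cand Z), ?_, ?_⟩
  · intro X X' hXX
    have : cand X = cand X' := by
      ext Y
      simp only [hcand, Set.mem_ofPred_eq]
      refine and_congr_right fun _ => forall_congr' fun v => ?_
      refine imp_congr_right fun hv => ?_
      rw [hXX v hv]
    simp only [this]
  · intro X hX
    have gX := hg X hX
    set H := HH X with hH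
    set τ := TT X with hτ
    obtain ⟨c0, hc0⟩ := ZMod.intCast_surjective
      (φ (fun i j => τ (H 0 0 + i) (H 0 1 + j)))
    refine ⟨fun x => H x 0 - H 0 0 + c0, ?_, ?_⟩
    · intro x
      have hne : (cand (fun v => X (x + v))).Nonempty :=
        ⟨fun v => X (x + v), inS_shift hX x, fun v _ => rfl⟩
      simp only [hval, dif_pos hne]
      set X' := hne.some with hX'
      obtain ⟨hS', hag⟩ : InS X' ∧ ∀ v : Z2, dist v 0 ≤ ((50 * ell k + 70 : ℕ) : ℝ) →
          X' v = X (x + v) := hne.some_mem
      have gX' := hg X' hS'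
      have hR : ∀ v : Z2, (∀ c, |v c| ≤ ((50 * ell k + 70 : ℕ) : ℤ)) → X' v = X (x + v) := by
        intro v hv
        refine hag v ((dist_le_nat v 0 _).2 ?_)
        simpa using hv
      have h1 : φ (fun i j => TT X' (HH X' 0 0 + i) (HH X' 0 1 + j)) =
          φ (fun i j => τ (H x 0 + i) (H x 1 + j)) := by
        refine hφ _ _ fun i j hi hj => ?_
        obtain ⟨y, hy⟩ := gX'.onto ![HH X' 0 0 + i, HH X' 0 1 + j]
        have hb : ∀ c, |HH X' y c - HH X' 0 c| ≤ 3 * (ell k : ℤ) := by
          intro c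
          rw [hy]
          fin_cases c
          · simpa using hi
          · simpa using hj
        have hyR : dist y 0 ≤ ((50 * ell k + 70 : ℕ) : ℝ) := by
          obtain ⟨c, hc⟩ := exists_eq_dist y 0
          have h2 := gX'.aff y 0 c
          have h3 : |((HH X' y c - HH X' 0 c : ℤ) : ℝ)| ≤ 3 * (ell k : ℝ) := by
            exact_mod_cast hb c
          rw [abs_le] at h2 h3
          have h4 : |((y c - (0 : Z2) c : ℤ) : ℝ)| ≤ 30 * (ell k : ℝ) + (4 / 10 * dist y 0 + 40) := by
            rw [abs_le]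
            constructor <;> linarith [h2.1, h2.2, h3.1, h3.2]
          rw [← hc] at h4
          push_cast
          linarith [(Nat.cast_nonneg (ell k) : (0 : ℝ) ≤ ell k)]
        have hyc : ∀ c, |y c| ≤ ((50 * ell k + 70 : ℕ) : ℤ) := by
          have := (dist_le_nat y 0 _).1 hyR
          simpa using this
        have hs := fun c => gX.sub_eq gX' x _ hR y hyc c
        have e1 : TT X' (HH X' 0 0 + i) (HH X' 0 1 + j) = X' y := by
          rw [gX'.eq y, hy]
          simp
        have e2 : τ (H x 0 + i) (H x 1 + j) = X (x + y) := by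
          rw [gX.eq (x + y)]
          have h0 := hs 0
          have h1 := hs 1
          rw [hy] at h0 h1
          simp only [Matrix.cons_val_zero, Matrix.cons_val_one] at h0 h1
          congr 1
          · omega
          · omega
        rw [e1, e2, hag y hyR]
      rw [h1]
      have h2 := hφτ τ gX.isT (H x 0) (H x 1) (H 0 0) (H 0 1)
      rw [sub_eq_iff_eq_add] at h2
      rw [h2, ← hc0]
      push_cast
      ring
    · intro x y
      have := gX.aff x y 0
      have e : (H x 0 - H 0 0 + c0 - (H y 0 - H 0 0 + c0) : ℤ) = H x 0 - H y 0 := by ring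
      simp only [e]
      exact this

end Pool.Agent.Helper8_SFT
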